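import Pool.Agent.H37.CSZ.Grp
import Pool.Agent.H37.CNU.Stmts
import Pool.Agent.H37.CNS.Stmts

/-!
# Denominators of conductors: the Suzuki groups `Sz(q)`, `q = 2 ^ (2 n + 1)`: statements of the rows of the
board `csz`

Row `XXX` is a theorem `xxx_thm (h1 : S_AAA) ... : S_XXX` in `Pool/Agent/H<k>/CSZ/XXX.lean`, importing this
file, namespace `Pool.CND`.

`f = 2 ^ (n + 1)`, `q = 2 ^ (2 n + 1)`, so `f ^ 2 = 2 q`; `e = q - f + 1`, `e (q + f + 1) = q ^ 2 + 1`.  The cover (the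
Deligne-Lusztig curve): `x ^ q + x = Δ`, `z ^ q + z = x ^ f Δ`, `w = x z + x ^ (f + 2) + z ^ f`, `Δ = u ^ e`, `X = (w, z, x, 1) / u`.  With `X^(j)` = the
`q ^ j`-th powers and `B(a, b) = a_0 b_3 + a_1 b_2 + a_2 b_1 + a_3 b_0`: `B(X, X^(1)) = 0`, the minors `01, 02, 13, 23` of `(X, X^(1))` are
the `f`-th powers of `X_0, ..., X_3`; `B(X, X^(2)) = 1`, `t = B(X, X^(3))`.  At the place `P`: `ord X_0 = q ^ 2`,
`ord X_1 = e (f + 1) - 1`, `ord X_2 = e - 1`, `ord X_3 = -1`, `ord t = -q ^ 2 (q - 1)`; the inertia group is the Borel group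
`g_10 = g_20 = g_30 = 0`.  The structure of the rows is that of the board `cnu` (`SU_3`).
-/

set_option autoImplicit false

namespace Pool.CND

open Finset Matrix

/-- the relations between `X` and `t` -/
structure SzR {L : Type} [Field L] (q f : ℕ) (t : L) (X : Fin 4 → L) : Prop where
  h1 : X 0 * X 3 ^ q + X 3 * X 0 ^ q + X 1 * X 2 ^ q + X 2 * X 1 ^ q = 0
  p01 : X 0 * X 1 ^ q + X 1 * X 0 ^ q = X 0 ^ f
  p02 : X 0 * X 2 ^ q + X 2 * X 0 ^ q = X 1 ^ f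
  p13 : X 1 * X 3 ^ q + X 3 * X 1 ^ q = X 2 ^ f
  p23 : X 2 * X 3 ^ q + X 3 * X 2 ^ q = X 3 ^ f
  h2 : X 0 * X 3 ^ (q ^ 2) + X 3 * X 0 ^ (q ^ 2) + X 1 * X 2 ^ (q ^ 2) + X 2 * X 1 ^ (q ^ 2) = 1
  h3 : X 0 * X 3 ^ (q ^ 3) + X 3 * X 0 ^ (q ^ 3) + X 1 * X 2 ^ (q ^ 3) + X 2 * X 1 ^ (q ^ 3) = t
  rel : ∀ i, X i ^ (q ^ 4) + t ^ q * X i ^ (q ^ 3) + t ^ f * X i ^ (q ^ 2) + t * X i ^ q + X i = 0
  ne : X 3 ≠ 0

/-- the data of the cover -/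
structure SzD (k F L : Type) [Field k] [Field F] [CharP F 2] [Field L] [Algebra F k] [Algebra k L]
    (q f e : ℕ) (φ : F →+* F) (t : L) (X : Fin 4 → L) (ρ : Sz φ →* (L ≃ₐ[k] L)) (P : Place k L) :
    Prop where
  rels : SzR q f t X
  act_t : ∀ g : Sz φ, ρ g t = t
  act_X : ∀ (g : Sz φ) (i : Fin 4), ρ g (X i) = ∑ j, cst k F L (g.1.1 j i) * X j
  ne : t ≠ 0 ∧ X 0 ≠ 0 ∧ X 1 ≠ 0 ∧ X 2 ≠ 0 ∧ X 3 ≠ 0
  ord_t : P.ord t = -((q ^ 2 * (q - 1) : ℕ) : ℤ)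
  ord_0 : P.ord (X 0) = ((q ^ 2 : ℕ) : ℤ)
  ord_1 : P.ord (X 1) = (e : ℤ) * (f + 1) - 1
  ord_2 : P.ord (X 2) = (e : ℤ) - 1
  ord_3 : P.ord (X 3) = -1
  tr : Transcendental k t
  fixed : ∀ z : L, (∀ g : Sz φ, ρ g z = z) → z ∈ IntermediateField.adjoin k {t}

/-- ZZL: Laurent series in `u`: `b ^ q + b = a` has the solution `b = ∑ a ^ (q ^ i)` for `a` of positive order;
`w ^ q + w = Δ (z + x ^ (f + 1))`, `(z + x ^ (f + 1)) ^ q + (z + x ^ (f + 1)) = x ^ q Δ ^ f` give the order of `w` -/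
def S_ZZL : Prop := ∀ (n q f e : ℕ) (k : Type) [Field k], CharP k 2 → 1 ≤ n → f = 2 ^ (n + 1) →
  q = 2 ^ (2 * n + 1) → e + f = q + 1 → ∃ x z w u : LaurentSeries k, u ≠ 0 ∧ x ≠ 0 ∧ z ≠ 0 ∧
  w ≠ 0 ∧ u.order = 1 ∧ x.order = e ∧ z.order = (e : ℤ) * (f + 1) ∧
  w.order = ((q ^ 2 + 1 : ℕ) : ℤ) ∧ x ^ q + x = u ^ e ∧ z ^ q + z = x ^ f * u ^ e ∧
  w = x * z + x ^ (f + 2) + z ^ f

/-- ZZR: the relations.  `a = z + x ^ (f + 1)`, `Δ = u ^ e`: `w ^ q + w = Δ a`, `a ^ q + a = x ^ q Δ ^ f`; `x z ^ q + z x ^ q = Δ a`,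
`x w ^ q + w x ^ q = Δ z ^ f`, `z w ^ q + w z ^ q = Δ w ^ f`; `w ^ (q^2) + w + x z ^ (q^2) + z x ^ (q^2) = Δ ^ (q + f + 1)`; the last part:
`w ^ (q^3) + w + x z ^ (q^3) + z x ^ (q^3) = Δ ^ (f+1+q) + Δ ^ (f+1+q^2) + Δ ^ (1+f q+q^2) + Δ ^ (q+f q+q^2)`; `u ^ (q ^ 2 + 1) = Δ ^ (q + f + 1)`.
`rel`: the vector is orthogonal (`B`) to `X, X^(1), X^(2), X^(3)`, which are a basis: `B(X, X^(4)) = t ^ (q + 1) + t ^ f` since
`t ^ f = B(X^(f), X^(3 f))` is the determinant of `X, X^(1), X^(3), X^(4)` = the Pfaffian of their Gram matrix (or check directly) -/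
def S_ZZR : Prop := ∀ (n q f e : ℕ) (Ω : Type) [Field Ω] (x z w u t : Ω), CharP Ω 2 → 1 ≤ n →
  f = 2 ^ (n + 1) → q = 2 ^ (2 * n + 1) → e + f = q + 1 → u ≠ 0 → x ^ q + x = u ^ e →
  z ^ q + z = x ^ f * u ^ e → w = x * z + x ^ (f + 2) + z ^ f →
  t = (w / u) * (1 / u) ^ (q ^ 3) + (1 / u) * (w / u) ^ (q ^ 3) + (z / u) * (x / u) ^ (q ^ 3) +
    (x / u) * (z / u) ^ (q ^ 3) →
  SzR q f t ![w / u, z / u, x / u, 1 / u] ∧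
  t * u ^ (q ^ 3 - q ^ 2) = 1 + u ^ (e * (q ^ 2 - q)) + u ^ (e * (q ^ 2 + f * q - (f + q))) +
    u ^ ((q ^ 2 + 1) * (q - 1))

/-- ZZA: the degree of an Artin-Schreier extension with `q = |F|`: the conjugates of `z` are `z + a`, `a` in an additive subgroup
`A` of `F`; if `A ≠ F` take `c ≠ 0` with `Tr(c A) = 0`: `r = ∑ (c z) ^ (2 ^ i)` is in `K`, `r ^ 2 + r = c g` -/
def S_ZZA : Prop := ∀ (m q : ℕ) (K Ω F : Type) [Field K] [Field Ω] [Algebra K Ω] [Field F]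
  [Algebra F K] (g : K) (z : Ω), CharP K 2 → 1 ≤ m → q = 2 ^ m → Nat.card F = q →
  z ^ q + z = algebraMap K Ω g →
  (∀ c : F, c ≠ 0 → ∀ r : K, r ^ 2 + r ≠ algebraMap F K c * g) →
  Module.finrank K (IntermediateField.adjoin K {z}) = q

/-- ZZX: `c x ^ f (x ^ q + x)` is not `r ^ 2 + r` in `k(x)`: `c x ^ (f + q) = s ^ f`, `s = c_1 x ^ (1 + q / f)`, so reduce to `s + c x ^ (f + 1)`, of odd degree -/
def S_ZZX : Prop := ∀ (n q f : ℕ) (k Ω : Type) [Field k] [Field Ω] [Algebra k Ω] (x : Ω) (c : k),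
  CharP k 2 → 1 ≤ n → f = 2 ^ (n + 1) → q = 2 ^ (2 * n + 1) → Transcendental k x → c ≠ 0 →
  c ^ q = c → ∀ r ∈ IntermediateField.adjoin k {x},
  r ^ 2 + r ≠ algebraMap k Ω c * (x ^ f * (x ^ q + x))

/-- ZZV: `[k(x, z, u) : k(u)] = q ^ 2`: `[k(x, z) : k(x)] = q` (`ZZA`, `ZZX`), `[k(x) : k(Δ)] = q`, `[k(u) : k(Δ)] = e`, prime to `q` -/
def S_ZZV : Prop := ∀ (n q f e : ℕ) (k F Ω : Type) [Field k] [Field F] [Algebra F k] [Field Ω]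
  [Algebra k Ω] (x z u : Ω), CharP k 2 → 1 ≤ n → f = 2 ^ (n + 1) → q = 2 ^ (2 * n + 1) →
  e + f = q + 1 → Nat.card F = q → Transcendental k u → x ^ q + x = u ^ e →
  z ^ q + z = x ^ f * u ^ e →
  IntermediateField.relfinrank (IntermediateField.adjoin k {u})
    (IntermediateField.adjoin k {x, z, u}) = q ^ 2

/-- ZZT: the degree of `t` as a rational function of `u` -/
def S_ZZT : Prop := ∀ (n q f e : ℕ) (k Ω : Type) [Field k] [Field Ω] [Algebra k Ω] (u t : Ω),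
  CharP k 2 → 1 ≤ n → f = 2 ^ (n + 1) → q = 2 ^ (2 * n + 1) → e + f = q + 1 →
  Transcendental k u →
  t * u ^ (q ^ 3 - q ^ 2) = 1 + u ^ (e * (q ^ 2 - q)) + u ^ (e * (q ^ 2 + f * q - (f + q))) +
    u ^ ((q ^ 2 + 1) * (q - 1)) →
  IntermediateField.adjoin k {t} ≤ IntermediateField.adjoin k {u} ∧
  IntermediateField.relfinrank (IntermediateField.adjoin k {t})
    (IntermediateField.adjoin k {u}) = (q ^ 2 + 1) * (q - 1)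

/-- ZZC: `|Sz(q)|` is at most `q ^ 2 (q - 1) (q ^ 2 + 1)`: the first column `a` of `g` satisfies `a_0 (a_0 a_3 + a_1 a_2) ^ (f/2) + a_1 ^ (f+1) + a_2 a_0 ^ f = 0`,
and `a = (0, 0, 0, a_3)` if `a_0 = 0` (Plücker relation and `a ∧ (a ∧ b) = 0` for the minors of the first two columns): `(q - 1) (q ^ 2 + 1)`
vectors; a fibre has at most `q ^ 2` elements (`ZZB`) -/
def S_ZZC : Prop := ∀ (n q f : ℕ) (F : Type) [Field F] [CharP F 2] (φ : F →+* F), 1 ≤ n →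
  f = 2 ^ (n + 1) → q = 2 ^ (2 * n + 1) → Nat.card F = q → (∀ a, φ a = a ^ f) →
  Nat.card (Sz φ) ≤ q ^ 2 * ((q - 1) * (q ^ 2 + 1))

/-- ZZB: the elements with `g_10 = g_20 = g_30 = 0`: upper triangular, diagonal `(a, φ(a)/a, a/φ(a), 1/a)`, `g_12 = φ(g_01) / a`,
`g_23 = g_01 / φ(a)`, ...; `q - 1`, `q`, `q` choices for `a = g_00`, `g_01`, `g_02` -/
def S_ZZB : Prop := ∀ (n q f : ℕ) (F : Type) [Field F] [CharP F 2] (φ : F →+* F), 1 ≤ n →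
  f = 2 ^ (n + 1) → q = 2 ^ (2 * n + 1) → Nat.card F = q → (∀ a, φ a = a ^ f) →
  (∀ g : Sz φ, g.1.1 1 0 = 0 → g.1.1 2 0 = 0 → g.1.1 3 0 = 0 →
    g.1.1 2 1 = 0 ∧ g.1.1 3 1 = 0 ∧ g.1.1 3 2 = 0 ∧ g.1.1 0 0 ≠ 0 ∧
    g.1.1 0 0 * g.1.1 3 3 = 1 ∧
    (g.1.1 0 0 = 1 → g.1.1 1 1 = 1 ∧ g.1.1 2 2 = 1 ∧ g.1.1 0 1 = g.1.1 2 3 ∧
      g.1.1 1 2 = φ (g.1.1 0 1) ∧ g.1.1 1 3 = g.1.1 0 2 + g.1.1 0 1 * φ (g.1.1 0 1) ∧
      (g.1.1 0 1 = 0 → g.1.1 0 2 = 0 → g = 1))) ∧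
  Nat.card {g : Sz φ // g.1.1 1 0 = 0 ∧ g.1.1 2 0 = 0 ∧ g.1.1 3 0 = 0} = q ^ 2 * (q - 1) ∧
  Nat.card {g : Sz φ // g.1.1 1 0 = 0 ∧ g.1.1 2 0 = 0 ∧ g.1.1 3 0 = 0 ∧ g.1.1 0 0 = 1} = q ^ 2 ∧
  Nat.card {g : Sz φ // g.1.1 1 0 = 0 ∧ g.1.1 2 0 = 0 ∧ g.1.1 3 0 = 0 ∧ g.1.1 0 0 = 1 ∧
    g.1.1 0 1 = 0} = q

/-- ZZG: the group (as `UNG`).  The roots of `T ^ (q ^ 4) + t ^ q T ^ (q ^ 3) + t ^ f T ^ (q ^ 2) + t T ^ q + T` are the combinations `∑ c_i X_i`, `c_i : F`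
(`X, X^(1), X^(2), X^(3)` have determinant `1`); a `k(t)`-automorphism is given by a matrix `g`, `X ↦ X g`; `D = g J gᵀ - J` is `0` from `h1`, `h2`, `h3` (and
their `q`-th powers), the minors from `p01, ..., p23` and their powers; the degree is at least the order of the group (`ZZC`) -/
def S_ZZG : Prop := ∀ (n q f : ℕ) (k F L : Type) [Field k] [Field F] [CharP F 2] [Field L]
  [Algebra F k] [Algebra k L] (φ : F →+* F) (t : L) (X : Fin 4 → L), CharP k 2 → 1 ≤ n →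
  f = 2 ^ (n + 1) → q = 2 ^ (2 * n + 1) → Nat.card F = q → (∀ a, φ a = a ^ f) → SzR q f t X →
  IntermediateField.adjoin k (insert t (Set.range X)) = ⊤ →
  Module.finrank (IntermediateField.adjoin k {t}) L = q ^ 2 * ((q - 1) * (q ^ 2 + 1)) →
  ∃ ρ : Sz φ →* (L ≃ₐ[k] L), (∀ g : Sz φ, ρ g t = t) ∧
    (∀ (g : Sz φ) (i : Fin 4), ρ g (X i) = ∑ j, cst k F L (g.1.1 j i) * X j) ∧
    ∀ z : L, (∀ g : Sz φ, ρ g z = z) → z ∈ IntermediateField.adjoin k {t}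

/-- ZZE: existence of the data, `L = k(x, z, u)` in `LaurentSeries k` (`ZZL`, `LSP`, `SBP`, `ZZR`, `ZZV`, `ZZT`, `ZZG`), as `UNE`; `ord t` from the last part
of `ZZR` -/
def S_ZZE : Prop := ∀ (n q f e : ℕ) (k F : Type) [Field k] [Field F] [CharP F 2] [Algebra F k]
  (φ : F →+* F), CharP k 2 → 1 ≤ n → f = 2 ^ (n + 1) → q = 2 ^ (2 * n + 1) → e + f = q + 1 →
  Nat.card F = q → (∀ a, φ a = a ^ f) →
  ∃ (L : Type) (_ : Field L) (_ : Algebra k L) (t : L) (X : Fin 4 → L)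
    (ρ : Sz φ →* (L ≃ₐ[k] L)) (P : Place k L), SzD k F L q f e φ t X ρ P

/-- ZZK: it is a cover (as `UNK`: at a place with `t` finite the `X i` are finite, by `rel`, and their residues are independent over
`F`: the determinant of `X, X^(1), X^(2), X^(3)` is `1`) -/
def S_ZZK : Prop := ∀ (n q f e : ℕ) (k F L : Type) [Field k] [Field F] [CharP F 2] [Field L]
  [Algebra F k] [Algebra k L] (φ : F →+* F) (t : L) (X : Fin 4 → L) (ρ : Sz φ →* (L ≃ₐ[k] L))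
  (P : Place k L), CharP k 2 → 1 ≤ n → f = 2 ^ (n + 1) → q = 2 ^ (2 * n + 1) → e + f = q + 1 →
  Nat.card F = q → (∀ a, φ a = a ^ f) → SzD k F L q f e φ t X ρ P → IsCover ρ t

/-- ZZF: the elements fixing `P`: they are in the Borel group (the order of `ρ g (X 0)`: the orders of the `X i` are distinct), and their number is
`- ord t = q ^ 2 (q - 1)` (`INF`; an element fixing `P` is in `ram 0`), that of the Borel group (`ZZB`) -/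
def S_ZZF : Prop := ∀ (n q f e : ℕ) (k F L : Type) [Field k] [IsAlgClosed k] [Field F]
  [CharP F 2] [Field L] [Algebra F k] [Algebra k L] (φ : F →+* F) (t : L) (X : Fin 4 → L)
  (ρ : Sz φ →* (L ≃ₐ[k] L)) (P : Place k L), CharP k 2 → 1 ≤ n → f = 2 ^ (n + 1) →
  q = 2 ^ (2 * n + 1) → e + f = q + 1 → Nat.card F = q → (∀ a, φ a = a ^ f) →
  SzD k F L q f e φ t X ρ P →
  ∀ g : Sz φ, Fixes P (ρ g) ↔ g.1.1 1 0 = 0 ∧ g.1.1 2 0 = 0 ∧ g.1.1 3 0 = 0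

/-- ZZN: the conductor, as `UNN`: for `g_00 = 1`: `g X_3 - X_3 = g_23 X_2 + g_13 X_1 + g_03 X_0`: `b = e` if `g_23 ≠ 0`, `b = e (f + 1)` if `g_23 = 0`, `g ≠ 1`;
if `g_00 ≠ 1` then `g X_3 - X_3` has the order of `X_3` -/
def S_ZZN : Prop := ∀ (n q f e : ℕ) (k F L : Type) [Field k] [IsAlgClosed k] [Field F]
  [CharP F 2] [Field L] [Algebra F k] [Algebra k L] (φ : F →+* F) (t : L) (X : Fin 4 → L)
  (ρ : Sz φ →* (L ≃ₐ[k] L)) (P : Place k L), CharP k 2 → 1 ≤ n → f = 2 ^ (n + 1) →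
  q = 2 ^ (2 * n + 1) → e + f = q + 1 → Nat.card F = q → (∀ a, φ a = a ^ f) →
  SzD k F L q f e φ t X ρ P →
  IsConductor P ρ (((e * (2 ^ n + 1) : ℕ) : ℚ) / (2 ^ n * (q - 1) : ℕ))

/-- ZZP: `2 ^ n (q - 1)` divides `N`: from `ZZE`, `ZZK`, `ZZN`, `PUN` (`F` embeds in `k`; the fraction is in lowest terms: modulo a prime dividing
`q - 1` and `2 ^ n + 1` one has `q = 2`; `e = 2 (1 - 2 ^ n)` modulo `q - 1`, and `gcd (2 ^ n - 1) (2 ^ (2 n + 1) - 1) = 1`) -/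
def S_ZZP : Prop := ∀ (n q f : ℕ) (k F : Type) [Field k] [IsAlgClosed k] [Field F] [CharP F 2]
  (φ : F →+* F), CharP k 2 → 1 ≤ n → f = 2 ^ (n + 1) → q = 2 ^ (2 * n + 1) → Nat.card F = q →
  (∀ a, φ a = a ^ f) → 2 ^ n * (q - 1) ∣ NG k (Sz φ)

/-! ## The upper bound -/

/-- ZU1: the order of `Sz(q)` and its Sylow 2-subgroups: the order is the degree of the cover (`ZZE` for `k` = algebraic closure of `F`, Artin) -/
def S_ZU1 : Prop := ∀ (n q f : ℕ) (F : Type) [Field F] [CharP F 2] (φ : F →+* F), 1 ≤ n →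
  f = 2 ^ (n + 1) → q = 2 ^ (2 * n + 1) → Nat.card F = q → (∀ a, φ a = a ^ f) →
  Finite (Sz φ) ∧ Nat.card (Sz φ) = q ^ 2 * ((q - 1) * (q ^ 2 + 1)) ∧
  ∀ W : Subgroup (Sz φ), (∃ r : ℕ, Nat.card W = 2 ^ r) → ∃ h : Sz φ, ∀ w ∈ W,
    (h * w * h⁻¹).1.1 1 0 = 0 ∧ (h * w * h⁻¹).1.1 2 0 = 0 ∧ (h * w * h⁻¹).1.1 3 0 = 0 ∧
    (h * w * h⁻¹).1.1 0 0 = 1

/-- ISO: a maximal subgroup `U` containing `R` with `ω = 0` on `U` is its own orthogonal, so `[Q : U] ≤ [U : R]` -/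
def S_ISO : Prop := ∀ (Q : Type) [Group Q] [Finite Q] (ω : Q → Q → ZMod 2) (R : Subgroup Q),
  (∀ a b c : Q, ω (a * b) c = ω a c + ω b c) → (∀ a b c : Q, ω a (b * c) = ω a b + ω a c) →
  (∀ a : Q, ω a a = 0) → (∀ r ∈ R, ∀ g : Q, ω r g = 0 ∧ ω g r = 0) →
  ∃ U : Subgroup Q, R ≤ U ∧ (∀ a ∈ U, ∀ b ∈ U, ω a b = 0) ∧ U.index ^ 2 ≤ R.index

/-- ZU2: the subgroups of the Sylow subgroup `Q` = `{g_10 = g_20 = g_30 = 0, g_00 = 1}`.  An involution `z` has `g_01 = 0`.  Let `λ : F → F_2` be linear with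
`λ(z_02) = 1`; commutators of elements of `Q` have `g_01 = 0`, `g_02 = g_01 φ(g'_01) + g'_01 φ(g_01)`; `ω(g, g') = λ` of it, `R = {g_01 = 0}`, of index `q`; `ISO`: `U` of index at
most `2 ^ n` in `Q`, `z ∈ R ≤ U`, `⁅U, U⁆ ⊆ {g_01 = 0, λ(g_02) = 0}`; `H = U ∩ W` -/
def S_ZU2 : Prop := ∀ (n q f : ℕ) (F : Type) [Field F] [CharP F 2] (φ : F →+* F), 1 ≤ n →
  f = 2 ^ (n + 1) → q = 2 ^ (2 * n + 1) → Nat.card F = q → (∀ a, φ a = a ^ f) →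
  ∀ W : Subgroup (Sz φ), (∀ w ∈ W, w.1.1 1 0 = 0 ∧ w.1.1 2 0 = 0 ∧ w.1.1 3 0 = 0 ∧
    w.1.1 0 0 = 1) → ∀ z ∈ W, z ≠ 1 → z ^ 2 = 1 → z.1.1 0 1 = 0 ∧ z.1.1 0 2 ≠ 0 ∧
    ∃ (H : Subgroup (Sz φ)) (d : ℕ), H ≤ W ∧ z ∈ H ∧ z ∉ ⁅H, H⁆ ∧ d ≤ n ∧
      Nat.card W = 2 ^ d * Nat.card H

/-- ZU3: `g z g⁻¹ = z'`, both in `Z(Q)`, not `1`: `g` preserves the plane spanned by the first two unit vectors (the kernel of `z - 1`), so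
`g_20 = g_30 = g_21 = g_31 = 0`, and `φ(g_10)` is the minor `02, 01` of `g`, which is `0` -/
def S_ZU3 : Prop := ∀ (n q f : ℕ) (F : Type) [Field F] [CharP F 2] (φ : F →+* F), 1 ≤ n →
  f = 2 ^ (n + 1) → q = 2 ^ (2 * n + 1) → Nat.card F = q → (∀ a, φ a = a ^ f) →
  ∀ g z z' : Sz φ, (∀ w ∈ ({z, z'} : Set (Sz φ)), w.1.1 1 0 = 0 ∧ w.1.1 2 0 = 0 ∧
    w.1.1 3 0 = 0 ∧ w.1.1 0 0 = 1 ∧ w.1.1 0 1 = 0 ∧ w ≠ 1) → g * z = z' * g →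
  g.1.1 1 0 = 0 ∧ g.1.1 2 0 = 0 ∧ g.1.1 3 0 = 0

/-- ZU4: the upper bound, from `GDV` (`a = n`, `r = q - 1`), `ZU1`, `ZU2`, `ZU3`, `ZZB`: conjugate `W` into `Q`; an element of odd order normalising `C` is in the
Borel group, where `g ^ (q - 1)` has `g_00 = 1`, so is in the 2-group `Q` -/
def S_ZU4 : Prop := ∀ (n q f : ℕ) (k F : Type) [Field k] [IsAlgClosed k] [Field F] [CharP F 2]
  (φ : F →+* F), CharP k 2 → 1 ≤ n → f = 2 ^ (n + 1) → q = 2 ^ (2 * n + 1) → Nat.card F = q →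
  (∀ a, φ a = a ^ f) → NG k (Sz φ) ∣ 2 ^ n * (q - 1)

/-- ZZZ: `ZZP`, `ZU4` -/
def S_ZZZ : Prop := ∀ (n q f : ℕ) (k F : Type) [Field k] [IsAlgClosed k] [Field F] [CharP F 2]
  (φ : F →+* F), CharP k 2 → 1 ≤ n → f = 2 ^ (n + 1) → q = 2 ^ (2 * n + 1) → Nat.card F = q →
  (∀ a, φ a = a ^ f) → NG k (Sz φ) = 2 ^ n * (q - 1)

end Pool.CND
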