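import Mathlib

/-!
# The Suzuki groups
-/

set_option autoImplicit false

namespace Pool.CND

open Matrix

/-- the matrix of the alternating form `X_0 Y_3 + X_1 Y_2 + X_2 Y_1 + X_3 Y_0` (characteristic 2) -/
def J4 (F : Type) [Field F] : Matrix (Fin 4) (Fin 4) F :=
  !![0, 0, 0, 1; 0, 0, 1, 0; 0, 1, 0, 0; 1, 0, 0, 0]

/-- the pairs `01, 02, 13, 23` -/
def pr1 : Fin 4 → Fin 4 := ![0, 0, 1, 2]

/-- second components of the pairs `01, 02, 13, 23` -/
def pr2 : Fin 4 → Fin 4 := ![1, 2, 3, 3]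

/-- the minors of `g` on the rows and columns `01, 02, 13, 23` -/
def mnr {F : Type} [Field F] (g : Matrix (Fin 4) (Fin 4) F) : Matrix (Fin 4) (Fin 4) F :=
  fun a b => g (pr1 a) (pr1 b) * g (pr2 a) (pr2 b) - g (pr1 a) (pr2 b) * g (pr2 a) (pr1 b)

theorem j4_sq (F : Type) [Field F] : J4 F * J4 F = 1 := by
  ext i j
  fin_cases i <;> fin_cases j <;> simp [J4, Matrix.mul_apply, Fin.sum_univ_four]

theorem j4_comm {F : Type} [Field F] {g : Matrix (Fin 4) (Fin 4) F} (h : gᵀ * J4 F * g = J4 F) :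
    g * J4 F * gᵀ = J4 F := by
  have h1 : (J4 F * gᵀ * J4 F) * g = 1 := by
    calc (J4 F * gᵀ * J4 F) * g = J4 F * (gᵀ * J4 F * g) := by simp only [Matrix.mul_assoc]
      _ = 1 := by rw [h, j4_sq]
  have h2 : g * (J4 F * gᵀ * J4 F) = 1 := mul_eq_one_comm.1 h1
  calc g * J4 F * gᵀ = g * (J4 F * gᵀ * J4 F) * J4 F := by
        simp only [Matrix.mul_assoc, j4_sq, Matrix.mul_one]
    _ = J4 F := by rw [h2, Matrix.one_mul]

theorem rows_iso {F : Type} [Field F] [CharP F 2] {g : Matrix (Fin 4) (Fin 4) F}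
    (h : g * J4 F * gᵀ = J4 F) (a : Fin 4) :
    g (pr1 a) 0 * g (pr2 a) 3 + g (pr1 a) 3 * g (pr2 a) 0 =
      g (pr1 a) 1 * g (pr2 a) 2 + g (pr1 a) 2 * g (pr2 a) 1 := by
  have h0 := congrFun (congrFun h (pr1 a)) (pr2 a)
  simp only [Matrix.mul_apply, Fin.sum_univ_four, Matrix.transpose_apply] at h0
  have h1 : J4 F (pr1 a) (pr2 a) = 0 := by fin_cases a <;> simp [J4, pr1, pr2]
  rw [h1] at h0
  simp [J4] at h0
  have h2 : (2 : F) = 0 := CharTwo.two_eq_zero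
  linear_combination h0 - (g (pr1 a) 1 * g (pr2 a) 2 + g (pr1 a) 2 * g (pr2 a) 1) * h2

theorem cols_iso {F : Type} [Field F] [CharP F 2] {g : Matrix (Fin 4) (Fin 4) F}
    (h : gᵀ * J4 F * g = J4 F) (b : Fin 4) :
    g 0 (pr1 b) * g 3 (pr2 b) + g 3 (pr1 b) * g 0 (pr2 b) =
      g 1 (pr1 b) * g 2 (pr2 b) + g 2 (pr1 b) * g 1 (pr2 b) := by
  have := rows_iso (g := gᵀ) (by rwa [Matrix.transpose_transpose]) b
  simpa using this

theorem mnr_mul {F : Type} [Field F] [CharP F 2] {g h : Matrix (Fin 4) (Fin 4) F}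
    (hg : gᵀ * J4 F * g = J4 F) (hh : hᵀ * J4 F * h = J4 F) : mnr (g * h) = mnr g * mnr h := by
  ext a b
  have r := rows_iso (j4_comm hg) a
  have c := cols_iso hh b
  simp only [mnr, Matrix.mul_apply, Fin.sum_univ_four]
  have e1 : pr1 0 = 0 := rfl
  have e2 : pr1 1 = 0 := rfl
  have e3 : pr1 2 = 1 := rfl
  have e4 : pr1 3 = 2 := rfl
  have f1 : pr2 0 = 1 := rfl
  have f2 : pr2 1 = 2 := rfl
  have f3 : pr2 2 = 3 := rfl
  have f4 : pr2 3 = 3 := rfl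
  simp only [e1, e2, e3, e4, f1, f2, f3, f4]
  have h2 : (2 : F) = 0 := CharTwo.two_eq_zero
  generalize pr1 a = i at *
  generalize pr2 a = i' at *
  generalize pr1 b = j at *
  generalize pr2 b = j' at *
  linear_combination (h 0 j * h 3 j' - h 3 j * h 0 j') * r + (g i 1 * g i' 2 - g i 2 * g i' 1) * c +
    (h 0 j * g i 2 * g i' 1 * h 3 j' - h 0 j * g i 3 * g i' 0 * h 3 j' +
      g i 1 * h 1 j * g i' 2 * h 2 j' - g i 1 * h 3 j * h 0 j' * g i' 2 -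
      h 1 j * g i 2 * g i' 1 * h 2 j' + g i 3 * h 3 j * g i' 0 * h 0 j') * h2

theorem mnr_one (F : Type) [Field F] : mnr (1 : Matrix (Fin 4) (Fin 4) F) = 1 := by
  ext a b
  simp only [mnr, Matrix.one_apply]
  fin_cases a <;> fin_cases b <;> simp [pr1, pr2]

/-- the Suzuki group for the endomorphism `φ` of `F` (characteristic 2; `φ a = a ^ (2 q_0)` on the field with `q = 2 q_0 ^ 2`
elements): the matrices preserving the alternating form, whose minors on `01, 02, 13, 23` are `φ` of their entries -/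
def Sz {F : Type} [Field F] [CharP F 2] (φ : F →+* F) :
    Subgroup (Matrix.SpecialLinearGroup (Fin 4) F) where
  carrier := {g | g.1ᵀ * J4 F * g.1 = J4 F ∧ mnr g.1 = g.1.map φ}
  mul_mem' := by
    intro a b ha hb
    simp only [Set.mem_setOf_eq] at ha hb ⊢
    have e : (a * b).1 = a.1 * b.1 := rfl
    rw [e]
    refine ⟨?_, ?_⟩
    · calc (a.1 * b.1)ᵀ * J4 F * (a.1 * b.1) = b.1ᵀ * (a.1ᵀ * J4 F * a.1) * b.1 := by
            rw [Matrix.transpose_mul]; simp only [Matrix.mul_assoc]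
        _ = J4 F := by rw [ha.1, hb.1]
    · rw [mnr_mul ha.1 hb.1, ha.2, hb.2, Matrix.map_mul]
  one_mem' := by
    simp only [Set.mem_setOf_eq]
    have e : (1 : Matrix.SpecialLinearGroup (Fin 4) F).1 = 1 := rfl
    rw [e]
    refine ⟨by simp, ?_⟩
    rw [mnr_one, Matrix.map_one φ (map_zero φ) (map_one φ)]
  inv_mem' := by
    intro a ha
    simp only [Set.mem_setOf_eq] at ha ⊢
    have h1 : a.1 * (a⁻¹).1 = 1 := by
      show (a * a⁻¹).1 = 1
      rw [mul_inv_cancel]; rfl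
    have h0 : (a⁻¹).1 * a.1 = 1 := by
      show (a⁻¹ * a).1 = 1
      rw [inv_mul_cancel]; rfl
    have h2 : (a⁻¹).1ᵀ * a.1ᵀ = 1 := by
      rw [← Matrix.transpose_mul, h1, Matrix.transpose_one]
    have h3 : (a⁻¹).1ᵀ * J4 F * (a⁻¹).1 = J4 F := by
      calc (a⁻¹).1ᵀ * J4 F * (a⁻¹).1 = (a⁻¹).1ᵀ * (a.1ᵀ * J4 F * a.1) * (a⁻¹).1 := by rw [ha.1]
        _ = ((a⁻¹).1ᵀ * a.1ᵀ) * J4 F * (a.1 * (a⁻¹).1) := by simp only [Matrix.mul_assoc]
        _ = J4 F := by rw [h2, h1, Matrix.one_mul, Matrix.mul_one]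
    refine ⟨h3, ?_⟩
    have h4 : (a.1.map φ) * mnr (a⁻¹).1 = 1 := by
      rw [← ha.2, ← mnr_mul ha.1 h3, h1, mnr_one]
    have h5 : ((a⁻¹).1.map φ) * (a.1.map φ) = 1 := by
      rw [← Matrix.map_mul, h0, Matrix.map_one φ (map_zero φ) (map_one φ)]
    calc mnr (a⁻¹).1 = (((a⁻¹).1.map φ) * (a.1.map φ)) * mnr (a⁻¹).1 := by rw [h5, Matrix.one_mul]
      _ = (a⁻¹).1.map φ := by rw [Matrix.mul_assoc, h4, Matrix.mul_one]

end Pool.CND
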